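import Mathlib

set_option autoImplicit false

/-!
A polynomial which is mapped to a variable by an injective endomorphism of the polynomial ring
in `n ≥ 3` variables need not be a coordinate polynomial.
-/

namespace Pool.Agent.Results.MP_a59f64_al.NonCoordinate

open MvPolynomial

variable (K : Type*) [Field K] (m : ℕ)

/-- the images of the variables -/
noncomputable def img (i : Fin (m + 3)) : MvPolynomial (Fin (m + 3)) K :=
  if i = 0 then X 1 ^ 2 - X 0
  else if i = 1 then -(1 + 2 * X 1 * X 2 + (X 1 ^ 2 - X 0) * X 2 ^ 2)
  else if i = 2 then X 1 + (X 1 ^ 2 - X 0) * X 2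
  else X i

theorem one_ne_zero' : (1 : Fin (m + 3)) ≠ 0 := by
  intro h
  have := congrArg Fin.val h
  simp at this

theorem two_ne_zero' : (2 : Fin (m + 3)) ≠ 0 := by
  intro h
  have := congrArg Fin.val h
  simp only [Fin.coe_ofNat_eq_mod] at this
  rw [Nat.mod_eq_of_lt (by omega), Nat.mod_eq_of_lt (by omega)] at this
  omega

theorem two_ne_one' : (2 : Fin (m + 3)) ≠ 1 := by
  intro h
  have := congrArg Fin.val h
  simp only [Fin.coe_ofNat_eq_mod] at this
  rw [Nat.mod_eq_of_lt (by omega), Nat.mod_eq_of_lt (by omega)] at this
  omega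

/-- the polynomial `x_3 ^ 2 + x_1 x_2` -/
noncomputable def poly : MvPolynomial (Fin (m + 3)) K := X 2 ^ 2 + X 0 * X 1

theorem img_zero : img K m 0 = X 1 ^ 2 - X 0 := by simp [img]

theorem img_one : img K m 1 = -(1 + 2 * X 1 * X 2 + (X 1 ^ 2 - X 0) * X 2 ^ 2) := by
  rw [img, if_neg (one_ne_zero' m), if_pos rfl]

theorem img_two : img K m 2 = X 1 + (X 1 ^ 2 - X 0) * X 2 := by
  rw [img, if_neg (two_ne_zero' m), if_neg (two_ne_one' m), if_pos rfl]

theorem aeval_poly : aeval (img K m) (poly K m) = X 0 := by
  rw [poly, map_add, map_mul, map_pow, aeval_X, aeval_X, aeval_X, img_zero, img_one, img_two]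
  ring

theorem not_coordinate (α : MvPolynomial (Fin (m + 3)) K ≃ₐ[K] MvPolynomial (Fin (m + 3)) K) :
    α (X 0) ≠ poly K m := by
  intro h
  have h1 : (X 0 : MvPolynomial (Fin (m + 3)) K) =
      α.symm (X 2) ^ 2 + α.symm (X 0) * α.symm (X 1) := by
    rw [← map_pow, ← map_mul, ← map_add, AlgEquiv.eq_symm_apply, h, poly]
  have h2 := congrArg (pderiv 0) h1
  rw [pderiv_X_self, map_add, Derivation.leibniz, Derivation.leibniz_pow] at h2
  have h3 := congrArg (fun q => eval (0 : Fin (m + 3) → K) (α q)) h2
  simp only [map_one, map_add, map_mul, smul_eq_mul, nsmul_eq_mul, map_pow,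
    AlgEquiv.apply_symm_apply, eval_X, Pi.zero_apply, zero_mul, zero_add, mul_zero] at h3
  simp at h3

theorem injective [Infinite K] : Function.Injective (aeval (img K m) :
    MvPolynomial (Fin (m + 3)) K →ₐ[K] MvPolynomial (Fin (m + 3)) K) := by
  rw [injective_iff_map_eq_zero]
  intro f hf
  have h2ne : (X 0 : MvPolynomial (Fin (m + 3)) K) ≠ 0 := X_ne_zero 0
  -- a polynomial identity along curves
  have key : ∀ (v : Fin (m + 3) → K) (c : K),
      eval (Function.update v 1 (v 0 * c ^ 2 - 2 * v 2 * c - 1)) f = 0 := by
    intro v c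
    -- the preimage
    let r : K := v 2 - v 0 * c
    let w : Fin (m + 3) → K := fun i => if i = 0 then r ^ 2 - v 0 else if i = 1 then r
      else if i = 2 then c else v i
    have hw0 : w 0 = r ^ 2 - v 0 := by simp [w]
    have hw1 : w 1 = r := by
      change (if (1 : Fin (m + 3)) = 0 then _ else if (1 : Fin (m + 3)) = 1 then r else _) = r
      rw [if_neg (one_ne_zero' m), if_pos rfl]
    have hw2 : w 2 = c := by
      change (if (2 : Fin (m + 3)) = 0 then _ else if (2 : Fin (m + 3)) = 1 then r else
        if (2 : Fin (m + 3)) = 2 then c else _) = c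
      rw [if_neg (two_ne_zero' m), if_neg (two_ne_one' m), if_pos rfl]
    have h1 : eval w (aeval (img K m) f) = 0 := by rw [hf, map_zero]
    have h2 : eval w (aeval (img K m) f) = eval (fun i => eval w (img K m i)) f := by
      rw [← aeval_eq_eval, ← aeval_eq_eval, ← comp_aeval_apply]
    rw [h2] at h1
    have h3 : (fun i => eval w (img K m i)) =
        Function.update v 1 (v 0 * c ^ 2 - 2 * v 2 * c - 1) := by
      funext i
      by_cases h0 : i = 0
      · subst h0
        rw [img_zero, Function.update_of_ne (one_ne_zero' m).symm]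
        simp [hw0, hw1]
      by_cases h1 : i = 1
      · subst h1
        rw [img_one, Function.update_self]
        simp only [map_neg, map_add, map_mul, map_sub, map_pow, eval_X, hw0, hw1, hw2, map_one,
          map_ofNat]
        simp only [r]
        ring
      by_cases h2 : i = 2
      · subst h2
        rw [img_two, Function.update_of_ne (two_ne_one' m)]
        simp only [map_add, map_mul, map_sub, map_pow, eval_X, hw0, hw1, hw2]
        simp only [r]
        ring
      · rw [img, if_neg h0, if_neg h1, if_neg h2, eval_X, Function.update_of_ne h1]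
        simp only [w]
        rw [if_neg h0, if_neg h1, if_neg h2]
    rwa [h3] at h1
  -- conclude
  have h3 : f * X 0 = 0 := by
    apply MvPolynomial.funext
    intro v
    rw [map_mul, eval_X, map_zero]
    by_cases hv : v 0 = 0
    · rw [hv, mul_zero]
    · -- the univariate polynomial
      let q : Polynomial K := aeval (fun i => Function.update (fun i => Polynomial.C (v i)) 1
        Polynomial.X i) f
      have hq : ∀ y : K, q.eval y = eval (Function.update v 1 y) f := by
        intro y
        have h4 : ((Polynomial.aeval y : Polynomial K →ₐ[K] K).comp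
            (aeval (fun i => Function.update (fun i => Polynomial.C (v i)) 1
              Polynomial.X i) : MvPolynomial (Fin (m + 3)) K →ₐ[K] Polynomial K)) =
            (aeval (Function.update v 1 y) : MvPolynomial (Fin (m + 3)) K →ₐ[K] K) := by
          apply MvPolynomial.algHom_ext
          intro i
          rw [AlgHom.comp_apply, aeval_X, aeval_X]
          by_cases hi : i = 1
          · subst hi
            rw [Function.update_self, Function.update_self, Polynomial.aeval_X]
          · rw [Function.update_of_ne hi, Function.update_of_ne hi, Polynomial.aeval_C]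
            rfl
        have h5 := DFunLike.congr_fun h4 f
        rw [AlgHom.comp_apply, aeval_eq_eval] at h5
        rw [← h5, Polynomial.coe_aeval_eq_eval]
      let g : Polynomial K := Polynomial.C (v 0) * Polynomial.X ^ 2 -
        Polynomial.C (2 * v 2) * Polynomial.X - 1
      have hg : ∀ c : K, g.eval c = v 0 * c ^ 2 - 2 * v 2 * c - 1 := by
        intro c
        simp [g]
      have h6 : q.comp g = 0 := by
        apply Polynomial.funext
        intro c
        rw [Polynomial.eval_comp, hg, hq, key, Polynomial.eval_zero]
      have h7 : q = 0 := by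
        rcases Polynomial.comp_eq_zero_iff.1 h6 with h | ⟨-, h⟩
        · exact h
        · exfalso
          have h8 := congrArg (fun r => Polynomial.coeff r 2) h
          simp only [g, Polynomial.coeff_sub, Polynomial.coeff_C_mul, Polynomial.coeff_X_pow,
            Polynomial.coeff_X, Polynomial.coeff_one, Polynomial.coeff_C] at h8
          norm_num at h8
          exact hv h8
      have h8 := hq (v 1)
      rw [h7, Polynomial.eval_zero, Function.update_eq_self] at h8
      rw [← h8, zero_mul]
  exact (mul_eq_zero.1 h3).resolve_right h2ne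

/-- For every infinite field `K` and every `n = m + 3 ≥ 3` there are an injective endomorphism
`φ` of `K[x_1, …, x_n]` and a polynomial `p` with `φ(p) = x_1` which is not a coordinate
polynomial. -/
theorem result (K : Type*) [Field K] [Infinite K] (m : ℕ) :
    ∃ (φ : MvPolynomial (Fin (m + 3)) K →ₐ[K] MvPolynomial (Fin (m + 3)) K)
      (p : MvPolynomial (Fin (m + 3)) K),
      Function.Injective φ ∧ φ p = X 0 ∧
      ¬ ∃ α : MvPolynomial (Fin (m + 3)) K ≃ₐ[K] MvPolynomial (Fin (m + 3)) K, α (X 0) = p :=
  ⟨aeval (img K m), poly K m, injective K m, aeval_poly K m, fun ⟨α, h⟩ => not_coordinate K m α h⟩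

end Pool.Agent.Results.MP_a59f64_al.NonCoordinate
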